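import Pool.Agent.helper51.QS.SpecB

/-!
# qs:GE4
-/

set_option autoImplicit false

namespace Pool.Agent.QS

open Pool.Agent.PC MvPolynomial

universe u

theorem GE4 : GE4_stmt.{u} := by
  intro k A L _ _ _ _ _ _ _ _ hfrac m hm hker hnull n h y hy hhn hzero
  let P : Submodule A (Ω[A⁄k]) :=
    Submodule.span A (Set.range fun i => KaehlerDifferential.D k A (y i))
  have hm2 : ∀ b ∈ m ^ 2, KaehlerDifferential.D k A b ∈ m • (⊤ : Submodule A (Ω[A⁄k])) := by
    intro b hb
    rw [pow_two] at hb
    refine Submodule.mul_induction_on hb ?_ ?_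
    · intro u hu v hv
      rw [Derivation.leibniz]
      exact add_mem (Submodule.smul_mem_smul hu trivial) (Submodule.smul_mem_smul hv trivial)
    · intro x y hx hy
      rw [map_add]
      exact add_mem hx hy
  have hD : ∀ a, KaehlerDifferential.D k A a ∈ P ⊔ m • (⊤ : Submodule A (Ω[A⁄k])) := by
    intro a
    obtain ⟨c, hc⟩ := hnull a
    obtain ⟨d, hd⟩ := hy.2.2 _ hc
    have h1 : KaehlerDifferential.D k A a = ∑ i, d i • KaehlerDifferential.D k A (y i)
        + KaehlerDifferential.D k A (a - algebraMap k A c - ∑ i, d i • y i) := by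
      rw [map_sub, map_sub, map_sum, Derivation.map_algebraMap, sub_zero]
      simp only [Derivation.map_smul]
      abel
    rw [h1]
    refine add_mem (Submodule.mem_sup_left ?_) (Submodule.mem_sup_right (hm2 _ hd))
    refine Submodule.sum_mem _ fun i _ => ?_
    exact P.smul_of_tower_mem (d i) (Submodule.subset_span ⟨i, rfl⟩)
  have htop : (⊤ : Submodule A (Ω[A⁄k])) ≤ P ⊔ m • (⊤ : Submodule A (Ω[A⁄k])) := by
    rw [← KaehlerDifferential.span_range_derivation k A, Submodule.span_le,
      KaehlerDifferential.span_range_derivation k A]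
    rintro _ ⟨a, rfl⟩
    exact hD a
  have hfin : Module.Finite A (Ω[A⁄k]) := inferInstance
  obtain ⟨r, hr1, hr2⟩ := Submodule.exists_sub_one_mem_and_smul_le_of_fg_of_le_sup
    (hfin.fg_top) le_rfl htop
  have hrm : r ∉ m := fun h1 => hm.ne_top ((Ideal.eq_top_iff_one m).2 (by
    have h2 := m.sub_mem h1 hr1
    rwa [sub_sub_cancel] at h2))
  have hrL : algebraMap A L r ≠ 0 := fun h1 => hrm (hker (RingHom.mem_ker.2 h1))
  let T : Submodule L (Ω[L⁄k]) := Submodule.span L (Set.range fun j : Fin (n - h) =>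
    KaehlerDifferential.D k L (algebraMap A L (y ⟨h + j, by omega⟩)))
  have hPT : ∀ ω ∈ P, KaehlerDifferential.map k k A L ω ∈ T := by
    intro ω hω
    refine Submodule.span_induction ?_ ?_ ?_ ?_ hω
    · rintro _ ⟨i, rfl⟩
      show KaehlerDifferential.map k k A L (KaehlerDifferential.D k A (y i)) ∈ T
      rw [KaehlerDifferential.map_D]
      rcases Nat.lt_or_ge (i : ℕ) h with h1 | h1
      · rw [hzero i h1, map_zero]
        exact T.zero_mem
      · refine Submodule.subset_span ⟨⟨i - h, by omega⟩, ?_⟩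
        have h2 : (⟨h + ((i : ℕ) - h), by omega⟩ : Fin n) = i := Fin.ext (by simp; omega)
        show KaehlerDifferential.D k L (algebraMap A L (y ⟨h + ((i : ℕ) - h), _⟩)) = _
        rw [h2]
    · rw [map_zero]; exact T.zero_mem
    · intro x y _ _ hx hy
      rw [map_add]; exact T.add_mem hx hy
    · intro a x _ hx
      rw [map_smul, ← algebraMap_smul L a]
      exact T.smul_mem _ hx
  have hDa : ∀ a : A, KaehlerDifferential.D k L (algebraMap A L a) ∈ T := by
    intro a
    have h1 : r • KaehlerDifferential.D k A a ∈ P :=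
      hr2 (Submodule.smul_mem_pointwise_smul _ r ⊤ trivial)
    have h2 := hPT _ h1
    rw [map_smul, KaehlerDifferential.map_D, ← algebraMap_smul L r] at h2
    exact (T.smul_mem_iff hrL).1 h2
  have hT : T = ⊤ := by
    rw [eq_top_iff, ← KaehlerDifferential.span_range_derivation k L, Submodule.span_le]
    rintro _ ⟨l, rfl⟩
    obtain ⟨a, b, hb, rfl⟩ := hfrac l
    show KaehlerDifferential.D k L _ ∈ T
    rw [Derivation.leibniz_div]
    exact T.smul_mem _ (T.sub_mem (T.smul_mem _ (hDa a)) (T.smul_mem _ (hDa b)))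
  rw [← finrank_top, ← hT]
  have h3 := finrank_range_le_card (R := L) (fun j : Fin (n - h) =>
    KaehlerDifferential.D k L (algebraMap A L (y ⟨h + j, by omega⟩)))
  rw [Fintype.card_fin] at h3
  exact h3

end Pool.Agent.QS
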