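import Pool.Agent.helper51.QS.SpecC

/-!
# qs:LCF
-/

set_option autoImplicit false

namespace Pool.Agent.QS

open Pool.Agent.PC MvPolynomial

universe u

/-- Nullstellensatz -/
theorem LCF_null (k A : Type u) [Field k] [IsAlgClosed k] [CommRing A] [Algebra k A]
    [Algebra.FiniteType k A] (m : Ideal A) [m.IsMaximal] (a : A) :
    ∃ c : k, a - algebraMap k A c ∈ m := by
  letI : Field (A ⧸ m) := Ideal.Quotient.field m
  haveI : Module.Finite k (A ⧸ m) := finite_of_finite_type_of_isJacobsonRing k (A ⧸ m)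
  haveI : Algebra.IsIntegral k (A ⧸ m) := Algebra.IsIntegral.of_finite k (A ⧸ m)
  obtain ⟨c, hc⟩ := (IsAlgClosed.algebraMap_bijective_of_isIntegral (k := k) (K := A ⧸ m)).2
    (Ideal.Quotient.mk m a)
  refine ⟨c, ?_⟩
  rw [← Ideal.Quotient.eq, ← hc]
  rfl

theorem LCF (hTRB : TRB_stmt.{u}) (hKDI : KDI_stmt.{u}) (hCRE : CRE_stmt.{u})
    (hQRR : QRR_stmt.{u}) (hTAY : TAY_stmt.{u}) (hFFL : FFL_stmt.{u}) (hPSU : PSU_stmt.{u})
    (hUFL : UFL_stmt.{u}) : LCF_stmt.{u} := by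
  intro k A K _ _ _ _ _ _ _ _ _ _ _ n hn
  haveI : Algebra.FiniteType k A := inferInstance
  haveI : IsNoetherianRing A := Algebra.FiniteType.isNoetherianRing k A
  haveI : Algebra.EssFiniteType A K := Algebra.EssFiniteType.of_isLocalization K (nonZeroDivisors A)
  haveI : Algebra.EssFiniteType k K := Algebra.EssFiniteType.comp k A K
  haveI : Infinite k := IsAlgClosed.instInfinite
  obtain ⟨x, hx⟩ := hTRB k A K n hn
  have hrk := (hKDI k K n x hx).2
  refine ⟨⟨x, hx⟩, hrk, fun m hm => ?_⟩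
  have hnull := LCF_null k A m
  have hT : ∀ y : Fin n → A, Coord k m y →
      ∃ φ : A →ₐ[k] MvPowerSeries (Fin n) k, Taylor m y φ := fun y hy =>
    hTAY k A n m hnull y hy (hQRR k A n m hm.ne_top hnull y hy)
  obtain ⟨y, hy⟩ := hCRE k A K n hrk m hm
  obtain ⟨φ, hφ⟩ := hT y hy
  exact ⟨⟨y, hy⟩, hT, hUFL k A n m y φ hφ (hPSU k n)⟩

end Pool.Agent.QS
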