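import Pool.Agent.helper4.QS.Spec

/-! # Module qs:BET -/

set_option autoImplicit false

open scoped BigOperators ComplexOrder ComplexConjugate Topology

namespace Pool.Agent.QS

open Pool.Agent.helper86.CM
open Filter

noncomputable section

theorem BET_step {B : Lat 1 ≃ₗ[ℤ] Lat 1} {t : ℤ} (hB : Cat B t) (hl : lam t + (lam t)⁻¹ = t)
    (h0 : lam t ≠ 0) (n m : Lat 1) : beta B t n (B m) = lam t * beta B t n m := by
  unfold beta
  have h1 : omega n (B (B m)) = t * omega n (B m) - omega n m := by
    rw [hB.ch m]
    have h2 : omega n (t • B m - m) = omega n (t • B m) + omega n (-m) := by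
      rw [sub_eq_add_neg, omega_add_right]
    have h3 : omega n (t • B m) = t * omega n (B m) := by
      rw [omega_swap, omega_smul_left, omega_swap n (B m)]
      ring
    have h4 : omega n (-m) = -omega n m := by
      have h5 : (-m : Lat 1) = (-1 : ℤ) • m := by simp
      rw [h5, omega_swap, omega_smul_left, omega_swap n m]
      ring
    rw [h2, h3, h4]
    ring
  rw [h1]
  push_cast
  have h6 : (t : ℝ) = lam t + (lam t)⁻¹ := hl.symm
  rw [h6]
  field_simp
  ring

/-- BET -/
theorem BET (hLUL : LUL_stmt) (hQF : QF0_stmt) : BET_stmt := by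
  intro B t hB
  obtain ⟨⟨hl2, hl, -⟩, -, -, -⟩ := hLUL t hB.lt
  have h0 : lam t ≠ 0 := by
    intro h
    rw [h] at hl2
    norm_num at hl2
  have hom : ∀ (e : ℤ) (n m : Lat 1), beta B t (pw B e n) (pw B e m) = beta B t n m := by
    intro e n m
    unfold beta
    rw [pw_om hB, ← pw_succ, pw_add, pw_om hB, pw_one]
  refine ⟨?_, ?_, ?_, ?_⟩
  · intro e n m
    induction e using Int.induction_on generalizing m with
    | zero => simp
    | succ i ih =>
      rw [pw_succ, BET_step hB hl h0, ih, zpow_add_one₀ h0]
      ring
    | pred i ih =>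
      have h1 := BET_step hB hl h0 n (pw B (-(i : ℤ) - 1) m)
      rw [← pw_succ, sub_add_cancel, ih] at h1
      rw [zpow_sub_one₀ h0]
      field_simp
      linear_combination -h1
  · intro e x y
    unfold hh
    show (beta B t (pw B e x.1) (pw B e y.2) - beta B t (pw B e y.1) (pw B e x.2)) / 2 = _
    rw [hom, hom]
  · intro b
    unfold beta
    rw [omega_self]
    simp
  · intro b hb hz
    apply hb
    -- coordinates
    set b1 := b (Sum.inl 0) with hb1
    set b2 := b (Sum.inr 0) with hb2
    set c1 := B b (Sum.inl 0) with hc1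
    set c2 := B b (Sum.inr 0) with hc2
    have hz' : b1 * c2 - b2 * c1 = 0 := by
      unfold omega at hz
      simpa using hz
    have hvec : ∀ x y : Lat 1, x (Sum.inl 0) = y (Sum.inl 0) → x (Sum.inr 0) = y (Sum.inr 0) →
        x = y := by
      intro x y h1 h2
      funext i
      rcases i with i | i
      · rw [Subsingleton.elim i 0]
        exact h1
      · rw [Subsingleton.elim i 0]
        exact h2
    have key : ∀ p q : ℤ, p • B b = q • b → q ^ 2 + t * (-p) * q + p ^ 2 = 0 ∨ b = 0 := by
      intro p q hpq
      have h1 : p • B (B b) = q • B b := by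
        have h0 : B (p • B b) = B (q • b) := by rw [hpq]
        rw [map_smul, map_smul] at h0
        exact h0
      rw [hB.ch b] at h1
      have h2 : (q ^ 2 + t * (-p) * q + p ^ 2) • b = 0 := by
        have h3 : p • (p • (t • B b - b)) = p • (q • B b) := by rw [h1]
        have h4 : p • (p • (t • B b - b)) = (t * p) • (p • B b) - (p ^ 2) • b := by
          rw [smul_sub, smul_sub, smul_smul, smul_smul, smul_smul, smul_smul]
          congr 2 <;> ring
        have h5 : p • (q • B b) = q • (p • B b) := smul_comm _ _ _
        rw [h4, h5, hpq, smul_smul, smul_smul] at h3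
        have h6 : (q ^ 2 + t * (-p) * q + p ^ 2) • b =
            (q * q) • b - ((t * p * q) • b - (p ^ 2) • b) := by
          rw [← sub_smul, ← sub_smul]
          congr 1
          ring
        rw [h6, h3, sub_self]
      exact smul_eq_zero.mp h2
    have k1 := key b1 c1 (hvec _ _ (by
      show b1 * c1 = c1 * b1
      ring) (by
      show b1 * c2 = c1 * b2
      linarith))
    have k2 := key b2 c2 (hvec _ _ (by
      show b2 * c1 = c2 * b1
      linarith) (by
      show b2 * c2 = c2 * b2
      ring))
    rcases k1 with k1 | k1
    · rcases k2 with k2 | k2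
      · have m1 : c1 = 0 ∧ -b1 = 0 := hQF t hB.lt c1 (-b1) (by linear_combination k1)
        have m2 : c2 = 0 ∧ -b2 = 0 := hQF t hB.lt c2 (-b2) (by linear_combination k2)
        exact hvec _ _ (by
          show b1 = 0
          linarith [m1.2]) (by
          show b2 = 0
          linarith [m2.2])
      · exact k2
    · exact k1

end

end Pool.Agent.QS
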