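import Pool.Agent.helper32.QS.Spec

/-!
# Project QS: module NQL (a normal nilpotent subgroup of class at most two)
-/

set_option autoImplicit false

namespace QS

open scoped BigOperators commutatorElement

/-- a normal subgroup `Y` that equals `⁅Y, Y⁆ Z` in a solvable group is contained in `Z` -/
theorem NQL_perfect {G : Type} [Group G] (hG : Group.IsSolvable G) (Y Z : Subgroup G)
    (hZn : Z.Normal) (h : ⁅Y, Y⁆ ⊔ Z = Y) : Y ≤ Z := by
  by_contra hYZ
  have hs : Group.IsSolvable (G ⧸ Z) :=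
    inferInstance
  have hne : Y.map (QuotientGroup.mk' Z) ≠ ⊥ := by
    intro hb
    rw [Subgroup.map_eq_bot_iff, QuotientGroup.ker_mk'] at hb
    exact hYZ hb
  have hlt := Group.IsSolvable.commutator_lt_of_ne_bot hne
  rw [← Subgroup.map_commutator] at hlt
  have hZ : Z.map (QuotientGroup.mk' Z) = ⊥ := by
    rw [Subgroup.map_eq_bot_iff, QuotientGroup.ker_mk']
  have h2 : (⁅Y, Y⁆ ⊔ Z).map (QuotientGroup.mk' Z) = (⁅Y, Y⁆).map (QuotientGroup.mk' Z) := by
    rw [Subgroup.map_sup, hZ, sup_bot_eq]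
  rw [h] at h2
  rw [h2] at hlt
  exact lt_irrefl _ hlt

theorem NQL : NQL_stmt := by
  intro G _ _ hG Z C hZn hCn hZC hcen hCZ
  classical
  -- the minimal subgroup `Y`
  have hfin : {Y : Subgroup G | Y.Normal ∧ Z ≤ Y ∧ Y ≤ C ∧ ¬ Y ≤ Z}.Finite := Set.toFinite _
  obtain ⟨Y, hYS, hmin⟩ := hfin.exists_minimal ⟨C, hCn, hZC, le_rfl, hCZ⟩
  obtain ⟨hYn, hZY, hYC, hYZ⟩ := hYS
  -- the commutator subgroup is contained in `Z`
  have hcomm : ⁅Y, Y⁆ ≤ Z := by
    by_contra hc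
    have hD : (⁅Y, Y⁆ ⊔ Z).Normal := inferInstance
    have hDY : ⁅Y, Y⁆ ⊔ Z ≤ Y := sup_le (Subgroup.commutator_le_left Y Y) hZY
    have hmem : (⁅Y, Y⁆ ⊔ Z) ∈ {Y : Subgroup G | Y.Normal ∧ Z ≤ Y ∧ Y ≤ C ∧ ¬ Y ≤ Z} :=
      ⟨hD, le_sup_right, hDY.trans hYC, fun h => hc (le_sup_left.trans h)⟩
    have h1 : Y ≤ ⁅Y, Y⁆ ⊔ Z := hmin hmem hDY
    exact hYZ (NQL_perfect hG Y Z hZn (le_antisymm hDY h1))
  -- `Y` is nilpotent
  have hcen2 : commutator Y ≤ Subgroup.center Y := by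
    rw [commutator_def, Subgroup.commutator_le]
    intro a _ b _
    rw [Subgroup.mem_center_iff]
    intro c
    apply Subtype.ext
    have h1 : ((⁅a, b⁆ : Y) : G) ∈ Z :=
      hcomm (Subgroup.commutator_mem_commutator a.2 b.2)
    exact (hcen _ h1 c (hYC c.2)).symm
  have hnil : Group.IsNilpotent Y := by
    refine Subgroup.isNilpotent_of_ker_le_center (Abelianization.of (G := Y)) ?_
    rw [Abelianization.ker_of]
    exact hcen2
  -- a Sylow subgroup outside `Z`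
  by_contra hno
  have hall : ∀ ℓ : ℕ, ℓ.Prime → ∀ P : Sylow ℓ Y, (P : Subgroup Y).map Y.subtype ≤ Z := by
    intro ℓ hℓ P
    by_contra hP
    have : Fact ℓ.Prime := ⟨hℓ⟩
    have hPn : (P : Subgroup Y).Normal := inferInstance
    have hPc : (P : Subgroup Y).Characteristic := P.characteristic_of_normal hPn
    have hmap : ((P : Subgroup Y).map Y.subtype).Normal := ConjAct.normal_of_characteristic_of_normal
    have hle : (P : Subgroup Y).map Y.subtype ≤ Y := Subgroup.map_subtype_le _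
    exact hno ⟨ℓ, (P : Subgroup Y).map Y.subtype, hℓ, hmap, P.isPGroup'.map _, hle.trans hYC, hP,
      fun a ha b hb => hcomm (Subgroup.commutator_mem_commutator (hle ha) (hle hb))⟩
  have hdvd : Nat.card Y ∣ Nat.card Z := by
    rw [Nat.dvd_iff_prime_pow_dvd_dvd]
    intro ℓ k hℓ hk
    have : Fact ℓ.Prime := ⟨hℓ⟩
    obtain P : Sylow ℓ Y := default
    have h1 : ℓ ^ k ∣ Nat.card (P : Subgroup Y) := P.pow_dvd_card_of_pow_dvd_card hk
    have h2 : Nat.card ((P : Subgroup Y).map Y.subtype) = Nat.card (P : Subgroup Y) :=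
      Subgroup.card_map_of_injective Y.subtype_injective
    exact (h2 ▸ h1).trans (Subgroup.card_dvd_of_le (hall ℓ hℓ P))
  have heq : Z = Y := Subgroup.eq_of_le_of_card_ge hZY (Nat.le_of_dvd Nat.card_pos hdvd)
  exact hYZ heq.ge

end QS
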